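import Mathlib

/-!
Structured stack programs over four stacks of bits, with a cost semantics, and their
translation to Mathlib machines of type `Turing.FinTM2`.
-/

namespace Pool.PT

/-- The four stacks. -/
inductive Reg
  | M | A | B | C
  deriving DecidableEq, Fintype

/-- Contents of the four stacks. -/
@[ext] structure St where
  m : List Bool
  a : List Bool
  b : List Bool
  c : List Bool

/-- Read a stack. -/
def St.get (s : St) : Reg → List Bool
  | .M => s.m
  | .A => s.a
  | .B => s.b
  | .C => s.c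

/-- Overwrite a stack. -/
def St.set (s : St) : Reg → List Bool → St
  | .M, l => ⟨l, s.a, s.b, s.c⟩
  | .A, l => ⟨s.m, l, s.b, s.c⟩
  | .B, l => ⟨s.m, s.a, l, s.c⟩
  | .C, l => ⟨s.m, s.a, s.b, l⟩

@[simp] theorem get_M (s : St) : s.get .M = s.m := rfl
@[simp] theorem get_A (s : St) : s.get .A = s.a := rfl
@[simp] theorem get_B (s : St) : s.get .B = s.b := rfl
@[simp] theorem get_C (s : St) : s.get .C = s.c := rfl
@[simp] theorem set_M (s : St) (l) : s.set .M l = ⟨l, s.a, s.b, s.c⟩ := rfl
@[simp] theorem set_A (s : St) (l) : s.set .A l = ⟨s.m, l, s.b, s.c⟩ := rfl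
@[simp] theorem set_B (s : St) (l) : s.set .B l = ⟨s.m, s.a, l, s.c⟩ := rfl
@[simp] theorem set_C (s : St) (l) : s.set .C l = ⟨s.m, s.a, s.b, l⟩ := rfl

theorem get_set (s : St) (k : Reg) (l : List Bool) :
    (s.set k l).get = Function.update s.get k l := by
  funext j
  cases k <;> cases j <;> simp [Function.update]

/-- Structured stack programs. -/
inductive Cmd
  | skip : Cmd
  | push (k : Reg) (b : Bool) : Cmd
  | seq (p q : Cmd) : Cmd
  | pop (k : Reg) (pe pf pt : Cmd) : Cmd
  | loop (k : Reg) (p : Cmd) : Cmd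

/-- `Runs p s s' n`: program `p` started with stacks `s` ends with stacks `s'` in `n` steps. -/
inductive Runs : Cmd → St → St → ℕ → Prop
  | skip (s : St) : Runs .skip s s 1
  | push (k : Reg) (b : Bool) (s : St) : Runs (.push k b) s (s.set k (b :: s.get k)) 1
  | seq {p q : Cmd} {s s' s'' : St} {n n' : ℕ} :
      Runs p s s' n → Runs q s' s'' n' → Runs (.seq p q) s s'' (n + n')
  | popE {k : Reg} {pe pf pt : Cmd} {s s' : St} {n : ℕ} : s.get k = [] →
      Runs pe s s' n → Runs (.pop k pe pf pt) s s' (n + 1)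
  | popF {k : Reg} {pe pf pt : Cmd} {s s' : St} {n : ℕ} {l : List Bool} : s.get k = false :: l →
      Runs pf (s.set k l) s' n → Runs (.pop k pe pf pt) s s' (n + 1)
  | popT {k : Reg} {pe pf pt : Cmd} {s s' : St} {n : ℕ} {l : List Bool} : s.get k = true :: l →
      Runs pt (s.set k l) s' n → Runs (.pop k pe pf pt) s s' (n + 1)
  | loopE {k : Reg} {p : Cmd} {s : St} : s.get k = [] → Runs (.loop k p) s s 1
  | loopF {k : Reg} {p : Cmd} {s : St} {l : List Bool} : s.get k = false :: l →
      Runs (.loop k p) s (s.set k l) 1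
  | loopT {k : Reg} {p : Cmd} {s s' s'' : St} {n n' : ℕ} {l : List Bool} :
      s.get k = true :: l → Runs p (s.set k l) s' n → Runs (.loop k p) s' s'' n' →
      Runs (.loop k p) s s'' (n + n' + 1)

/-- Stack `M` grows by at most one symbol per step. -/
theorem Runs.length_le {p : Cmd} {s s' : St} {n : ℕ} (h : Runs p s s' n) :
    s'.m.length ≤ s.m.length + n := by
  induction h with
  | skip s => simp
  | push k b s => cases k <;> simp
  | seq _ _ ih1 ih2 => omega
  | popE _ _ ih => omega
  | @popF k pe pf pt s s' n l h _ ih =>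
    have : (s.set k l).m.length ≤ s.m.length := by
      cases k <;> simp at h ⊢
      rw [h]; simp
    omega
  | @popT k pe pf pt s s' n l h _ ih =>
    have : (s.set k l).m.length ≤ s.m.length := by
      cases k <;> simp at h ⊢
      rw [h]; simp
    omega
  | loopE _ => omega
  | @loopF k p s l h =>
    have : (s.set k l).m.length ≤ s.m.length := by
      cases k <;> simp at h ⊢
      rw [h]; simp
    omega
  | @loopT k p s s' s'' n n' l h _ _ ih1 ih2 =>
    have : (s.set k l).m.length ≤ s.m.length := by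
      cases k <;> simp at h ⊢
      rw [h]; simp
    omega

/-! ### Translation to `TM2` -/

/-- Labels of a program. -/
def Lab : Cmd → Type
  | .skip => Unit
  | .push _ _ => Unit
  | .seq p q => Lab p ⊕ Lab q
  | .pop _ pe pf pt => Unit ⊕ (Lab pe ⊕ (Lab pf ⊕ Lab pt))
  | .loop _ p => Unit ⊕ Lab p

/-- Entry label. -/
def entry : (c : Cmd) → Lab c
  | .skip => ()
  | .push _ _ => ()
  | .seq p _ => Sum.inl (entry p)
  | .pop _ _ _ _ => Sum.inl ()
  | .loop _ _ => Sum.inl ()

/-- Labels are finite in number. -/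
def labFintype : (c : Cmd) → Fintype (Lab c)
  | .skip => inferInstanceAs (Fintype Unit)
  | .push _ _ => inferInstanceAs (Fintype Unit)
  | .seq p q =>
    letI := labFintype p
    letI := labFintype q
    inferInstanceAs (Fintype (Lab p ⊕ Lab q))
  | .pop _ pe pf pt =>
    letI := labFintype pe
    letI := labFintype pf
    letI := labFintype pt
    inferInstanceAs (Fintype (Unit ⊕ (Lab pe ⊕ (Lab pf ⊕ Lab pt))))
  | .loop _ p =>
    letI := labFintype p
    inferInstanceAs (Fintype (Unit ⊕ Lab p))

instance (c : Cmd) : Fintype (Lab c) := labFintype c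

/-- The statements of the `TM2` machine. -/
def code {Λ : Type} : (c : Cmd) → (Lab c → Λ) → Λ → Lab c →
    Turing.TM2.Stmt (fun _ : Reg => Bool) Λ (Option Bool)
  | .skip, _, ex, _ => .goto fun _ => ex
  | .push k b, _, ex, _ => .push k (fun _ => b) (.goto fun _ => ex)
  | .seq p q, emb, _, Sum.inl l => code p (fun x => emb (Sum.inl x)) (emb (Sum.inr (entry q))) l
  | .seq _ q, emb, ex, Sum.inr l => code q (fun x => emb (Sum.inr x)) ex l
  | .pop k pe pf pt, emb, _, Sum.inl _ =>
    .pop k (fun _ o => o) (.goto fun v => match v with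
      | none => emb (Sum.inr (Sum.inl (entry pe)))
      | some false => emb (Sum.inr (Sum.inr (Sum.inl (entry pf))))
      | some true => emb (Sum.inr (Sum.inr (Sum.inr (entry pt)))))
  | .pop _ pe _ _, emb, ex, Sum.inr (Sum.inl l) =>
    code pe (fun x => emb (Sum.inr (Sum.inl x))) ex l
  | .pop _ _ pf _, emb, ex, Sum.inr (Sum.inr (Sum.inl l)) =>
    code pf (fun x => emb (Sum.inr (Sum.inr (Sum.inl x)))) ex l
  | .pop _ _ _ pt, emb, ex, Sum.inr (Sum.inr (Sum.inr l)) =>
    code pt (fun x => emb (Sum.inr (Sum.inr (Sum.inr x)))) ex l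
  | .loop k p, emb, ex, Sum.inl _ =>
    .pop k (fun _ o => o) (.goto fun v => match v with
      | some true => emb (Sum.inr (entry p))
      | _ => ex)
  | .loop _ p, emb, _, Sum.inr l => code p (fun x => emb (Sum.inr x)) (emb (Sum.inl ())) l

/-- `n` steps of a transition function. -/
def StepsN {σ : Type*} (f : σ → Option σ) (n : ℕ) (x y : σ) : Prop :=
  (flip bind f)^[n] (some x) = some y

theorem StepsN.zero {σ : Type*} (f : σ → Option σ) (x : σ) : StepsN f 0 x x := rfl

theorem StepsN.one {σ : Type*} {f : σ → Option σ} {x y : σ} (h : f x = some y) :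
    StepsN f 1 x y := by
  simp [StepsN, flip, h]

theorem StepsN.trans {σ : Type*} {f : σ → Option σ} {n m : ℕ} {x y z : σ}
    (h1 : StepsN f n x y) (h2 : StepsN f m y z) : StepsN f (n + m) x z := by
  unfold StepsN at *
  rw [add_comm, Function.iterate_add_apply, h1, h2]

theorem code_runs {c : Cmd} {s s' : St} {n : ℕ} (h : Runs c s s' n) :
    ∀ {Λ : Type} (m : Λ → Turing.TM2.Stmt (fun _ : Reg => Bool) Λ (Option Bool))
      (emb : Lab c → Λ) (ex : Λ), (∀ l, m (emb l) = code c emb ex l) → ∀ v : Option Bool,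
      ∃ v' : Option Bool, StepsN (Turing.TM2.step m) n ⟨some (emb (entry c)), v, s.get⟩
        ⟨some ex, v', s'.get⟩ := by
  induction h with
  | skip s =>
    intro Λ m emb ex hm v
    refine ⟨v, StepsN.one ?_⟩
    simp [Turing.TM2.step, hm, code, Turing.TM2.stepAux, entry]
  | push k b s =>
    intro Λ m emb ex hm v
    refine ⟨v, StepsN.one ?_⟩
    simp [Turing.TM2.step, hm, code, Turing.TM2.stepAux, entry, get_set]
  | @seq p q s s' s'' n n' _ _ ih1 ih2 =>
    intro Λ m emb ex hm v
    obtain ⟨v1, h1⟩ := ih1 m (fun x => emb (Sum.inl x)) (emb (Sum.inr (entry q)))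
      (fun l => by rw [hm]; rfl) v
    obtain ⟨v2, h2⟩ := ih2 m (fun x => emb (Sum.inr x)) ex (fun l => by rw [hm]; rfl) v1
    exact ⟨v2, h1.trans h2⟩
  | @popE k pe pf pt s s' n hk _ ih =>
    intro Λ m emb ex hm v
    obtain ⟨v1, h1⟩ := ih m (fun x => emb (Sum.inr (Sum.inl x))) ex
      (fun l => by rw [hm]; rfl) none
    refine ⟨v1, ?_⟩
    rw [add_comm]
    refine StepsN.trans (StepsN.one ?_) h1
    have : Function.update s.get k [] = s.get := by
      rw [← hk]; simp
    simp [Turing.TM2.step, hm, code, Turing.TM2.stepAux, entry, hk, this]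
  | @popF k pe pf pt s s' n l hk _ ih =>
    intro Λ m emb ex hm v
    obtain ⟨v1, h1⟩ := ih m (fun x => emb (Sum.inr (Sum.inr (Sum.inl x)))) ex
      (fun l => by rw [hm]; rfl) (some false)
    refine ⟨v1, ?_⟩
    rw [add_comm]
    refine StepsN.trans (StepsN.one ?_) h1
    simp [Turing.TM2.step, hm, code, Turing.TM2.stepAux, entry, hk, get_set]
  | @popT k pe pf pt s s' n l hk _ ih =>
    intro Λ m emb ex hm v
    obtain ⟨v1, h1⟩ := ih m (fun x => emb (Sum.inr (Sum.inr (Sum.inr x)))) ex
      (fun l => by rw [hm]; rfl) (some true)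
    refine ⟨v1, ?_⟩
    rw [add_comm]
    refine StepsN.trans (StepsN.one ?_) h1
    simp [Turing.TM2.step, hm, code, Turing.TM2.stepAux, entry, hk, get_set]
  | @loopE k p s hk =>
    intro Λ m emb ex hm v
    refine ⟨none, StepsN.one ?_⟩
    have : Function.update s.get k [] = s.get := by
      rw [← hk]; simp
    simp [Turing.TM2.step, hm, code, Turing.TM2.stepAux, entry, hk, this]
  | @loopF k p s l hk =>
    intro Λ m emb ex hm v
    refine ⟨some false, StepsN.one ?_⟩
    simp [Turing.TM2.step, hm, code, Turing.TM2.stepAux, entry, hk, get_set]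
  | @loopT k p s s' s'' n n' l hk _ _ ih1 ih2 =>
    intro Λ m emb ex hm v
    obtain ⟨v1, h1⟩ := ih1 m (fun x => emb (Sum.inr x)) (emb (Sum.inl ()))
      (fun l => by rw [hm]; rfl) (some true)
    obtain ⟨v2, h2⟩ := ih2 m emb ex hm v1
    refine ⟨v2, ?_⟩
    have e : n + n' + 1 = 1 + (n + n') := by ring
    rw [e]
    refine StepsN.trans (StepsN.one ?_) (h1.trans h2)
    simp [Turing.TM2.step, hm, code, Turing.TM2.stepAux, entry, hk, get_set]

/-- The machine of a program: input and output on stack `M`. -/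
def machine (c : Cmd) : Turing.FinTM2 where
  K := Reg
  k₀ := .M
  k₁ := .M
  Γ := fun _ => Bool
  Λ := Option (Lab c)
  main := some (entry c)
  σ := Option Bool
  initialState := none
  m := fun l => match l with
    | some l => code c some none l
    | none => .load (fun _ => none) .halt

theorem machine_outputs {c : Cmd} {x y : List Bool} {n : ℕ}
    (h : Runs c ⟨x, [], [], []⟩ ⟨y, [], [], []⟩ n) :
    Nonempty (Turing.TM2OutputsInTime (machine c) x (some y) (n + 1)) := by
  obtain ⟨v', h1⟩ := code_runs h (machine c).m some none (fun l => rfl) none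
  refine ⟨⟨⟨n + 1, ?_⟩, le_refl _⟩⟩
  have h2 : StepsN (Turing.TM2.step (machine c).m) (n + 1)
      ⟨some (some (entry c)), none, (St.mk x [] [] []).get⟩
      ⟨none, none, (St.mk y [] [] []).get⟩ := by
    refine h1.trans (StepsN.one ?_)
    simp [Turing.TM2.step, machine, Turing.TM2.stepAux]
  have e1 : Turing.initList (machine c) x =
      ⟨some (some (entry c)), none, (St.mk x [] [] []).get⟩ := by
    unfold Turing.initList
    congr 1
    funext k
    cases k <;> rfl
  have e2 : Turing.haltList (machine c) y = ⟨none, none, (St.mk y [] [] []).get⟩ := by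
    unfold Turing.haltList
    congr 1
    funext k
    cases k <;> rfl
  unfold StepsN at h2
  rw [e1]
  simp only [Option.map_some]
  rw [e2]
  exact h2

end Pool.PT
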