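import Pool.Agent.Work.PolyTime.Trees

/-!
More stack transformers: pairing, folding over lists, equality of trees, length, bit lists.
-/

namespace Pool.PT

/-- Tree code of a Boolean. -/
def encB : Bool → BT
  | false => .leaf
  | true => .node .leaf .leaf

/-- Tree code of a list of trees. -/
def encL : List BT → BT
  | [] => .leaf
  | x :: l => .node x (encL l)

/-- Unary code of a number. -/
def encU : ℕ → BT
  | 0 => .leaf
  | n + 1 => .node .leaf (encU n)

theorem size_encU (n : ℕ) : (encU n).size = 2 * n + 1 := by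
  induction n with
  | zero => rfl
  | succ n ih => simp [encU, ih]; omega

theorem encL_size_cons (x : BT) (l : List BT) :
    (encL (x :: l)).size = x.size + (encL l).size + 1 := by simp [encL]

/-- Loop on the top list of `M`. -/
theorem tr_loop_nil {body : Cmd} (xs : List BT) :
    Tr (.loop .M body) (.leaf :: xs) xs 1 := by
  intro r a b k
  exact RunsLe.loopF (k := .M) (by simp [BT.ser])

theorem tr_loop_node {body : Cmd} {x y : BT} {xs ys zs : List BT} {N N' : ℕ}
    (h1 : Tr body (x :: y :: xs) ys N) (h2 : Tr (.loop .M body) ys zs N') :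
    Tr (.loop .M body) (.node x y :: xs) zs (N + N' + 1) := by
  intro r a b k
  exact RunsLe.loopT (k := .M) (l := sers (x :: y :: xs) ++ r) (by simp [BT.ser])
    (h1 r a b k) (h2 r a b k)

/-- Body of the fold. -/
def foldBody (cf : Cmd) : Cmd := .seq swap (dip (.seq swap (.seq mkNode cf)))

/-- Fold over a list. -/
def foldCmd (cf : Cmd) : Cmd := .loop .M (foldBody cf)

theorem tr_foldBody {cf : Cmd} {x l s s' : BT} {N : ℕ} (h : Tr cf [.node s x] [s'] N) :
    Tr (foldBody cf) [x, l, s] [l, s'] (N + 18 * x.size + 18 * l.size + 9 * s.size + 26) := by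
  have h1 := tr_swap x l [s]
  have h2 := tr_dip ((tr_swap x s []).seq ((tr_mkNode s x []).seq h)) l
  refine Tr.mono (h1.seq h2) ?_
  omega

theorem tr_fold {cf : Cmd} (f : BT → BT → BT) (t : BT → BT → ℕ) :
    ∀ (l : List BT) (s : BT) (B : ℕ),
      (∀ l1 x l2, l = l1 ++ x :: l2 →
        Tr cf [.node (l1.foldl f s) x] [f (l1.foldl f s) x] (t (l1.foldl f s) x)) →
      (∀ l1 x l2, l = l1 ++ x :: l2 →
        t (l1.foldl f s) x + 18 * x.size + 18 * (encL l2).size + 9 * (l1.foldl f s).size + 26
          ≤ B) →
      Tr (foldCmd cf) [encL l, s] [l.foldl f s] (l.length * (B + 1) + 1) := by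
  intro l
  induction l with
  | nil =>
    intro s B _ _
    exact (tr_loop_nil [s]).mono (by simp)
  | cons x l ih =>
    intro s B hf hB
    have h1 : Tr (foldBody cf) [x, encL l, s] [encL l, f s x] B :=
      Tr.mono (tr_foldBody (hf [] x l rfl)) (hB [] x l rfl)
    have h2 := ih (f s x) B (fun l1 y l2 h => by
      have := hf (x :: l1) y l2 (by rw [h]; rfl)
      simpa using this) (fun l1 y l2 h => by
      have := hB (x :: l1) y l2 (by rw [h]; rfl)
      simpa using this)
    refine Tr.mono (tr_loop_node h1 h2) ?_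
    simp only [List.length_cons]
    ring_nf
    omega

theorem cod_eq_cdr (w a : List Bool) : cod w a = cdr w.reverse a := by
  induction w generalizing a with
  | nil => rfl
  | cons b w ih => simp [cod, ih, cdr_append, cdr]

/-- Set the flag on `C` to false. -/
def setF : Cmd := .pop .C .skip (.push .C false) (.push .C false)

theorem setF_runs (m a b k : List Bool) (f : Bool) :
    RunsLe setF ⟨m, a, b, f :: k⟩ ⟨m, a, b, false :: k⟩ 2 := by
  cases f
  · exact RunsLe.popF (k := .C) (by rfl) (RunsLe.push _ _ _)
  · exact RunsLe.popT (k := .C) (by rfl) (RunsLe.push _ _ _)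

/-- Compare bit `b` (already popped from `A`) with the block on `B`. -/
def eqBit (b : Bool) : Cmd :=
  .pop .B .skip (.seq (.push .B false) setF)
    (if b then .pop .B .skip setF .skip else .pop .B .skip .skip setF)

/-- First loop of the comparison. -/
def eqLoop1 : Cmd := .loop .A (.pop .A .skip (eqBit false) (eqBit true))

/-- Second loop of the comparison. -/
def eqLoop2 : Cmd := .loop .B (.pop .B .skip setF setF)

theorem eqLoop2_runs (u : List Bool) : ∀ (m a b k : List Bool) (f : Bool),
    RunsLe eqLoop2 ⟨m, a, cdr u (false :: b), f :: k⟩ ⟨m, a, b, (f && u.isEmpty) :: k⟩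
      (4 * u.length + 1) := by
  induction u with
  | nil => intro m a b k f; simpa [eqLoop2, cdr] using RunsLe.loopF (k := .B) (s := ⟨m, a, false :: b, f :: k⟩)
            (p := .pop .B .skip setF setF) (l := b) (by rfl)
  | cons x u ih =>
    intro m a b k f
    have h2 : RunsLe (.pop .B .skip setF setF) ⟨m, a, x :: cdr u (false :: b), f :: k⟩
        ⟨m, a, cdr u (false :: b), false :: k⟩ 3 := by
      cases x
      · exact RunsLe.popF (k := .B) (by rfl) (setF_runs _ _ _ _ _)
      · exact RunsLe.popT (k := .B) (by rfl) (setF_runs _ _ _ _ _)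
    have h3 := RunsLe.loopT (k := .B) (s := ⟨m, a, cdr (x :: u) (false :: b), f :: k⟩)
      (l := x :: cdr u (false :: b)) (by simp [cdr]) h2 (ih m a b k false)
    refine RunsLe.mono ?_ (show 3 + (4 * u.length + 1) + 1 ≤ _ by simp; omega)
    simpa [eqLoop2] using h3

theorem eqBit_nil (x f : Bool) (m a b k : List Bool) :
    RunsLe (eqBit x) ⟨m, a, false :: b, f :: k⟩ ⟨m, a, false :: b, false :: k⟩ 4 := by
  refine RunsLe.mono (RunsLe.popF (k := .B) (l := b) (by rfl)
    (RunsLe.seq (RunsLe.push _ _ _) (setF_runs _ _ _ _ _))) (by norm_num)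

theorem eqBit_cons (x y f : Bool) (m a b k : List Bool) :
    RunsLe (eqBit x) ⟨m, a, true :: y :: b, f :: k⟩ ⟨m, a, b, (f && (x == y)) :: k⟩ 4 := by
  have key : RunsLe (if x then .pop .B .skip setF .skip else .pop .B .skip .skip setF)
      ⟨m, a, y :: b, f :: k⟩ ⟨m, a, b, (f && (x == y)) :: k⟩ 3 := by
    cases x <;> cases y
    · simp only [beq_self_eq_true, Bool.and_true]
      exact RunsLe.mono (RunsLe.popF (k := .B) (by rfl) (RunsLe.skip _)) (by norm_num)
    · have e : (f && (false == true)) = false := by cases f <;> rfl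
      rw [e]
      exact RunsLe.popT (k := .B) (by rfl) (setF_runs _ _ _ _ _)
    · have e : (f && (true == false)) = false := by cases f <;> rfl
      rw [e]
      exact RunsLe.popF (k := .B) (by rfl) (setF_runs _ _ _ _ _)
    · simp only [beq_self_eq_true, Bool.and_true]
      exact RunsLe.mono (RunsLe.popT (k := .B) (by rfl) (RunsLe.skip _)) (by norm_num)
  exact RunsLe.popT (k := .B) (l := y :: b) (by rfl) key

theorem eqLoop1_runs (u : List Bool) : ∀ (v m a b k : List Bool) (f : Bool),
    ∃ v' f', RunsLe eqLoop1 ⟨m, cdr u (false :: a), cdr v (false :: b), f :: k⟩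
      ⟨m, a, cdr v' (false :: b), f' :: k⟩ (6 * u.length + 1) ∧ v'.length ≤ v.length ∧
      (f' && v'.isEmpty) = (f && (u == v)) := by
  induction u with
  | nil =>
    intro v m a b k f
    refine ⟨v, f, RunsLe.loopF (k := .A) (by rfl), le_refl _, ?_⟩
    cases v <;> simp
  | cons x u ih =>
    intro v m a b k f
    cases v with
    | nil =>
      obtain ⟨v', f', h1, h2, h3⟩ := ih [] m a b k false
      have hb : RunsLe (.pop .A .skip (eqBit false) (eqBit true))
          ⟨m, x :: cdr u (false :: a), cdr [] (false :: b), f :: k⟩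
          ⟨m, cdr u (false :: a), cdr [] (false :: b), false :: k⟩ 5 := by
        cases x
        · exact RunsLe.popF (k := .A) (by rfl) (eqBit_nil _ _ _ _ _ _)
        · exact RunsLe.popT (k := .A) (by rfl) (eqBit_nil _ _ _ _ _ _)
      refine ⟨v', f', ?_, h2, ?_⟩
      · have h4 := RunsLe.loopT (k := .A) (s := ⟨m, cdr (x :: u) (false :: a), cdr [] (false :: b), f :: k⟩)
          (l := x :: cdr u (false :: a)) (by simp [cdr]) hb h1
        refine RunsLe.mono h4 (by simp; omega)
      · rw [h3]; simp
    | cons y v =>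
      obtain ⟨v', f', h1, h2, h3⟩ := ih v m a b k (f && (x == y))
      have hb : RunsLe (.pop .A .skip (eqBit false) (eqBit true))
          ⟨m, x :: cdr u (false :: a), cdr (y :: v) (false :: b), f :: k⟩
          ⟨m, cdr u (false :: a), cdr v (false :: b), (f && (x == y)) :: k⟩ 5 := by
        cases x
        · exact RunsLe.popF (k := .A) (by rfl) (eqBit_cons _ _ _ _ _ _ _)
        · exact RunsLe.popT (k := .A) (by rfl) (eqBit_cons _ _ _ _ _ _ _)
      refine ⟨v', f', ?_, by simp; omega, ?_⟩
      · have h4 := RunsLe.loopT (k := .A)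
          (s := ⟨m, cdr (x :: u) (false :: a), cdr (y :: v) (false :: b), f :: k⟩)
          (l := x :: cdr u (false :: a)) (by simp [cdr]) hb h1
        refine RunsLe.mono h4 (by simp; omega)
      · rw [h3, Bool.and_assoc]; rfl

/-- Equality test of the two top trees. -/
def eqT : Cmd :=
  .seq toA (.seq toB (.seq (.push .C true) (.seq eqLoop1 (.seq eqLoop2
    (.pop .C .skip (pushT (encB false)) (pushT (encB true)))))))

theorem tr_eqT (x y : BT) (zs : List BT) :
    Tr eqT (x :: y :: zs) (encB (decide (x = y)) :: zs) (12 * x.size + 10 * y.size + 16) := by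
  intro r a b k
  have h1 := toA_runs x (sers (y :: zs) ++ r) a b k
  have h2 := toB_runs y (sers zs ++ r) (cod x.ser (false :: a)) b k
  have h2' : RunsLe toB ⟨sers (y :: zs) ++ r, cod x.ser (false :: a), b, k⟩
      ⟨sers zs ++ r, cod x.ser (false :: a), cod y.ser (false :: b), k⟩ (6 * y.size + 4) := by
    simpa using h2
  have h3 := RunsLe.push .C true ⟨sers zs ++ r, cod x.ser (false :: a), cod y.ser (false :: b), k⟩
  simp only [get_C, set_C] at h3
  obtain ⟨v', f', h4, h5, h6⟩ := eqLoop1_runs x.ser.reverse y.ser.reverse (sers zs ++ r) a b k true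
  rw [← cod_eq_cdr, ← cod_eq_cdr] at h4
  have h7 := eqLoop2_runs v' (sers zs ++ r) a b k f'
  have h8 : (f' && v'.isEmpty) = decide (x = y) := by
    rw [h6]
    simp only [Bool.true_and]
    rw [Bool.eq_iff_iff]
    simp only [beq_iff_eq, decide_eq_true_eq, List.reverse_inj]
    exact ser_injective.eq_iff
  rw [h8] at h7
  have h9 : RunsLe (.pop .C .skip (pushT (encB false)) (pushT (encB true)))
      ⟨sers zs ++ r, a, b, decide (x = y) :: k⟩
      ⟨sers (encB (decide (x = y)) :: zs) ++ r, a, b, k⟩ 4 := by
    by_cases hxy : x = y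
    · simp only [hxy, decide_true]
      refine RunsLe.mono (RunsLe.popT (k := .C) (by rfl) (tr_pushT (encB true) zs r a b k)) ?_
      simp [encB]
    · simp only [hxy, decide_false]
      refine RunsLe.mono (RunsLe.popF (k := .C) (by rfl) (tr_pushT (encB false) zs r a b k)) ?_
      simp [encB]
  refine RunsLe.mono (by simpa [eqT] using RunsLe.seq h1 (RunsLe.seq h2' (RunsLe.seq h3
    (RunsLe.seq h4 (RunsLe.seq h7 h9))))) ?_
  have : v'.length ≤ y.size := by
    simpa [BT.size] using h5
  simp only [List.length_reverse, BT.size] at *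
  omega

/-- Replace the top tree by its size in unary. -/
def sizeT : Cmd :=
  .seq toA (.seq pushLeaf (.loop .A (.pop .A .skip (.seq (.push .M false) (.push .M true))
    (.seq (.push .M false) (.push .M true)))))

theorem sizeLoop_runs (u : List Bool) : ∀ (n : ℕ) (m a b k : List Bool),
    RunsLe (.loop .A (.pop .A .skip (.seq (.push .M false) (.push .M true))
      (.seq (.push .M false) (.push .M true))))
      ⟨(encU n).ser ++ m, cdr u (false :: a), b, k⟩ ⟨(encU (u.length + n)).ser ++ m, a, b, k⟩
      (4 * u.length + 1) := by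
  induction u with
  | nil => intro n m a b k; simpa [cdr] using RunsLe.loopF (k := .A)
            (s := ⟨(encU n).ser ++ m, false :: a, b, k⟩) (l := a) (by rfl)
  | cons x u ih =>
    intro n m a b k
    have h2 : RunsLe (.pop .A .skip (.seq (.push .M false) (.push .M true))
        (.seq (.push .M false) (.push .M true)))
        ⟨(encU n).ser ++ m, x :: cdr u (false :: a), b, k⟩
        ⟨(encU (n + 1)).ser ++ m, cdr u (false :: a), b, k⟩ 3 := by
      cases x
      · exact RunsLe.popF (k := .A) (by rfl) (RunsLe.seq (RunsLe.push _ _ _) (RunsLe.push _ _ _))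
      · exact RunsLe.popT (k := .A) (by rfl) (RunsLe.seq (RunsLe.push _ _ _) (RunsLe.push _ _ _))
    have h3 := RunsLe.loopT (k := .A) (s := ⟨(encU n).ser ++ m, cdr (x :: u) (false :: a), b, k⟩)
      (l := x :: cdr u (false :: a)) (by simp [cdr]) h2 (ih (n + 1) m a b k)
    have e : (x :: u).length + n = u.length + (n + 1) := by simp; omega
    rw [e]
    refine RunsLe.mono h3 (by simp; omega)

theorem tr_sizeT (x : BT) (zs : List BT) :
    Tr sizeT (x :: zs) (encU x.size :: zs) (10 * x.size + 6) := by
  intro r a b k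
  have h1 := toA_runs x (sers zs ++ r) a b k
  have h2 := tr_pushLeaf zs r (cod x.ser (false :: a)) b k
  have h3 := sizeLoop_runs x.ser.reverse 0 (sers zs ++ r) a b k
  rw [← cod_eq_cdr] at h3
  refine RunsLe.mono (by simpa [sizeT, encU, BT.size] using RunsLe.seq h1 (RunsLe.seq h2 h3)) ?_
  simp [BT.size]; omega

/-- Replace the top tree by the list of bits of its code. -/
def serT : Cmd :=
  .seq toA (.seq pushLeaf (.loop .A (.pop .A .skip
    (.seq (pushT (encB false)) mkNode) (.seq (pushT (encB true)) mkNode))))

theorem serLoop_runs (u : List Bool) : ∀ (v : List Bool) (m a b k : List Bool),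
    RunsLe (.loop .A (.pop .A .skip
    (.seq (pushT (encB false)) mkNode) (.seq (pushT (encB true)) mkNode)))
      ⟨(encL (v.map encB)).ser ++ m, cdr u (false :: a), b, k⟩
      ⟨(encL ((u.reverse ++ v).map encB)).ser ++ m, a, b, k⟩
      (6 * u.length + 1) := by
  induction u with
  | nil => intro v m a b k; simpa [cdr] using RunsLe.loopF (k := .A)
            (s := ⟨(encL (v.map encB)).ser ++ m, false :: a, b, k⟩) (l := a) (by rfl)
  | cons x u ih =>
    intro v m a b k
    have h2 : RunsLe (.pop .A .skip
        (.seq (pushT (encB false)) mkNode) (.seq (pushT (encB true)) mkNode))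
        ⟨(encL (v.map encB)).ser ++ m, x :: cdr u (false :: a), b, k⟩
        ⟨(encL ((x :: v).map encB)).ser ++ m, cdr u (false :: a), b, k⟩ 5 := by
      have h3 : ∀ z : Bool, RunsLe (.seq (pushT (encB z)) mkNode)
          ⟨(encL (v.map encB)).ser ++ m, cdr u (false :: a), b, k⟩
          ⟨(encL ((z :: v).map encB)).ser ++ m, cdr u (false :: a), b, k⟩ 4 := by
        intro z
        have h4 := (tr_pushT (encB z) [encL (v.map encB)]).seq
          (tr_mkNode (encB z) (encL (v.map encB)) []) m (cdr u (false :: a)) b k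
        refine RunsLe.mono (by simpa [encL] using h4) ?_
        cases z <;> simp [encB]
      cases x
      · exact RunsLe.popF (k := .A) (by rfl) (h3 false)
      · exact RunsLe.popT (k := .A) (by rfl) (h3 true)
    have h3 := RunsLe.loopT (k := .A)
      (s := ⟨(encL (v.map encB)).ser ++ m, cdr (x :: u) (false :: a), b, k⟩)
      (l := x :: cdr u (false :: a)) (by simp [cdr]) h2 (ih (x :: v) m a b k)
    have e : (x :: u).reverse ++ v = u.reverse ++ (x :: v) := by simp
    rw [e]
    refine RunsLe.mono h3 (by simp; omega)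

theorem tr_serT (x : BT) (zs : List BT) :
    Tr serT (x :: zs) (encL (x.ser.map encB) :: zs) (12 * x.size + 6) := by
  intro r a b k
  have h1 := toA_runs x (sers zs ++ r) a b k
  have h2 := tr_pushLeaf zs r (cod x.ser (false :: a)) b k
  have h3 := serLoop_runs x.ser.reverse [] (sers zs ++ r) a b k
  rw [← cod_eq_cdr] at h3
  refine RunsLe.mono (by simpa [serT, encL] using RunsLe.seq h1 (RunsLe.seq h2 h3)) ?_
  simp [BT.size]; omega

end Pool.PT
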