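import Pool.Agent.Work.PolyTime.Ops

/-!
Typed layer: codes of types, polynomially bounded functions, polynomial time functions.
-/

namespace Pool.PT

/-- Types whose elements are coded by binary trees. -/
class TEnc (α : Type) where
  enc : α → BT
  enc_inj : Function.Injective enc

open TEnc

/-- Size of the code of an element. -/
def sz {α : Type} [TEnc α] (a : α) : ℕ := (enc a).size

theorem sz_pos {α : Type} [TEnc α] (a : α) : 1 ≤ sz a := BT.one_le_size _

/-! ### Codes of types -/

instance : TEnc BT := ⟨id, Function.injective_id⟩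

instance : TEnc Unit := ⟨fun _ => .leaf, fun _ _ _ => rfl⟩

theorem encB_injective : Function.Injective encB := by
  intro a b h
  cases a <;> cases b <;> simp_all [encB]

instance : TEnc Bool := ⟨encB, encB_injective⟩

theorem encU_injective : Function.Injective encU := by
  intro a
  induction a with
  | zero => intro b h; cases b with
    | zero => rfl
    | succ b => simp [encU] at h
  | succ a ih => intro b h; cases b with
    | zero => simp [encU] at h
    | succ b => simp only [encU, BT.node.injEq, true_and] at h; rw [ih h]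

instance : TEnc ℕ := ⟨encU, encU_injective⟩

instance {α β : Type} [TEnc α] [TEnc β] : TEnc (α × β) :=
  ⟨fun p => .node (enc p.1) (enc p.2), by
    rintro ⟨a, b⟩ ⟨c, d⟩ h
    simp only [BT.node.injEq] at h
    rw [enc_inj h.1, enc_inj h.2]⟩

theorem encL_map_injective {α : Type} [TEnc α] :
    Function.Injective (fun l : List α => encL (l.map enc)) := by
  intro a
  induction a with
  | nil => intro b h; cases b with
    | nil => rfl
    | cons y b => simp [encL] at h
  | cons x a ih => intro b h; cases b with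
    | nil => simp [encL] at h
    | cons y b =>
      simp only [List.map_cons, encL, BT.node.injEq] at h
      rw [enc_inj h.1, ih h.2]

instance {α : Type} [TEnc α] : TEnc (List α) :=
  ⟨fun l => encL (l.map enc), encL_map_injective⟩

/-- Code of an option. -/
def encO {α : Type} [TEnc α] : Option α → BT
  | none => .leaf
  | some a => .node .leaf (enc a)

instance {α : Type} [TEnc α] : TEnc (Option α) :=
  ⟨encO, by
    intro a b h
    cases a <;> cases b <;> simp_all [encO]
    exact enc_inj h⟩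

instance {α : Type} [TEnc α] (p : α → Prop) : TEnc {a : α // p a} :=
  ⟨fun a => enc a.1, fun _ _ h => Subtype.ext (enc_inj h)⟩

theorem enc_unit (a : Unit) : enc a = .leaf := rfl
theorem enc_bool (b : Bool) : enc b = encB b := rfl
theorem enc_nat (n : ℕ) : enc n = encU n := rfl
theorem enc_prod {α β : Type} [TEnc α] [TEnc β] (p : α × β) :
    enc p = .node (enc p.1) (enc p.2) := rfl
theorem enc_nil {α : Type} [TEnc α] : enc ([] : List α) = .leaf := rfl
theorem enc_cons {α : Type} [TEnc α] (a : α) (l : List α) :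
    enc (a :: l) = .node (enc a) (enc l) := rfl
theorem enc_list {α : Type} [TEnc α] (l : List α) : enc l = encL (l.map enc) := rfl
theorem enc_none {α : Type} [TEnc α] : enc (none : Option α) = .leaf := rfl
theorem enc_some {α : Type} [TEnc α] (a : α) : enc (some a) = .node .leaf (enc a) := rfl
theorem enc_bt (t : BT) : enc t = t := rfl

@[simp] theorem sz_unit (a : Unit) : sz a = 1 := rfl
@[simp] theorem sz_nat (n : ℕ) : sz n = 2 * n + 1 := size_encU n
@[simp] theorem sz_prod {α β : Type} [TEnc α] [TEnc β] (a : α) (b : β) :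
    sz (a, b) = sz a + sz b + 1 := by simp [sz, enc_prod]
@[simp] theorem sz_nil {α : Type} [TEnc α] : sz ([] : List α) = 1 := rfl
@[simp] theorem sz_cons {α : Type} [TEnc α] (a : α) (l : List α) :
    sz (a :: l) = sz a + sz l + 1 := by simp [sz, enc_cons]
@[simp] theorem sz_none {α : Type} [TEnc α] : sz (none : Option α) = 1 := rfl
@[simp] theorem sz_some {α : Type} [TEnc α] (a : α) : sz (some a) = sz a + 2 := by
  simp [sz, enc_some]; omega
@[simp] theorem sz_true : sz true = 3 := rfl
@[simp] theorem sz_false : sz false = 1 := rfl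
theorem sz_bool (b : Bool) : sz b ≤ 3 := by cases b <;> simp

theorem sz_list {α : Type} [TEnc α] (l : List α) : sz l = (l.map (fun a => sz a + 1)).sum + 1 := by
  induction l with
  | nil => rfl
  | cons a l ih => simp [ih]; omega

theorem length_le_sz {α : Type} [TEnc α] (l : List α) : l.length ≤ sz l := by
  induction l with
  | nil => simp
  | cons a l ih => simp; omega

theorem sz_append {α : Type} [TEnc α] (l l' : List α) : sz (l ++ l') + 1 = sz l + sz l' := by
  induction l with
  | nil => simp; omega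
  | cons a l ih => simp; omega

theorem sz_mem_le {α : Type} [TEnc α] {l : List α} {a : α} (h : a ∈ l) : sz a ≤ sz l := by
  induction l with
  | nil => simp at h
  | cons b l ih =>
    simp only [List.mem_cons] at h
    rcases h with rfl | h
    · simp; omega
    · have := ih h; simp; omega

theorem sz_fst_le {α β : Type} [TEnc α] [TEnc β] (p : α × β) : sz p.1 ≤ sz p := by
  obtain ⟨a, b⟩ := p; simp; omega

theorem sz_snd_le {α β : Type} [TEnc α] [TEnc β] (p : α × β) : sz p.2 ≤ sz p := by
  obtain ⟨a, b⟩ := p; simp; omega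

/-! ### Polynomial bounds -/

/-- `t` is bounded by a polynomial in the size of the argument. -/
def PB {α : Type} [TEnc α] (t : α → ℕ) : Prop := ∃ k : ℕ, ∀ a, t a ≤ (sz a + 1) ^ k

section PB
variable {α β : Type} [TEnc α] [TEnc β]

theorem PB.mono {t s : α → ℕ} (hs : PB s) (h : ∀ a, t a ≤ s a) : PB t := by
  obtain ⟨k, hk⟩ := hs
  exact ⟨k, fun a => (h a).trans (hk a)⟩

theorem two_le (a : α) : 2 ≤ sz a + 1 := by have := sz_pos a; omega

theorem PB.const (n : ℕ) : PB (fun _ : α => n) := by
  refine ⟨n, fun a => ?_⟩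
  have h1 : n < 2 ^ n := Nat.lt_two_pow_self
  have h2 : 2 ^ n ≤ (sz a + 1) ^ n := Nat.pow_le_pow_left (two_le a) n
  exact h1.le.trans h2

theorem PB.sz : PB (fun a : α => Pool.PT.sz a) := ⟨1, fun a => by simp⟩

theorem PB.add {t s : α → ℕ} (ht : PB t) (hs : PB s) : PB (fun a => t a + s a) := by
  obtain ⟨k, hk⟩ := ht
  obtain ⟨l, hl⟩ := hs
  refine ⟨max k l + 1, fun a => ?_⟩
  have h0 : 1 ≤ Pool.PT.sz a + 1 := by omega
  have h1 := hk a
  have h2 := hl a
  have h3 : (Pool.PT.sz a + 1) ^ k ≤ (Pool.PT.sz a + 1) ^ max k l :=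
    Nat.pow_le_pow_right h0 (le_max_left _ _)
  have h4 : (Pool.PT.sz a + 1) ^ l ≤ (Pool.PT.sz a + 1) ^ max k l :=
    Nat.pow_le_pow_right h0 (le_max_right _ _)
  have h5 : 2 * (Pool.PT.sz a + 1) ^ max k l ≤ (Pool.PT.sz a + 1) ^ (max k l + 1) := by
    rw [pow_succ, mul_comm]
    exact Nat.mul_le_mul_left _ (two_le a)
  beta_reduce
  omega

theorem PB.mul {t s : α → ℕ} (ht : PB t) (hs : PB s) : PB (fun a => t a * s a) := by
  obtain ⟨k, hk⟩ := ht
  obtain ⟨l, hl⟩ := hs
  refine ⟨k + l, fun a => ?_⟩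
  rw [pow_add]
  exact Nat.mul_le_mul (hk a) (hl a)

theorem PB.pow {t : α → ℕ} (ht : PB t) (n : ℕ) : PB (fun a => t a ^ n) := by
  obtain ⟨k, hk⟩ := ht
  refine ⟨k * n, fun a => ?_⟩
  rw [pow_mul]
  exact Nat.pow_le_pow_left (hk a) n

theorem PB.comp {t : β → ℕ} (ht : PB t) {f : α → β} (hf : PB (fun a => Pool.PT.sz (f a))) :
    PB (fun a => t (f a)) := by
  obtain ⟨k, hk⟩ := ht
  obtain ⟨l, hl⟩ := hf.add (PB.const 1)
  refine ⟨l * k, fun a => (hk (f a)).trans ?_⟩
  rw [pow_mul]
  exact Nat.pow_le_pow_left (hl a) k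

end PB

/-! ### Polynomial time functions -/

/-- The function is computed by a program within the given number of steps. -/
def TC {α β : Type} [TEnc α] [TEnc β] (f : α → β) (t : α → ℕ) : Prop :=
  ∃ c : Cmd, ∀ a, Tr c [enc a] [enc (f a)] (t a)

/-- The function is computed by a program in polynomial time. -/
@[fun_prop] def Poly {α β : Type} [TEnc α] [TEnc β] (f : α → β) : Prop :=
  ∃ t : α → ℕ, PB t ∧ TC f t

section basic
variable {α β γ δ : Type} [TEnc α] [TEnc β] [TEnc γ] [TEnc δ]

theorem TC.mono {f : α → β} {t s : α → ℕ} (h : TC f t) (hs : ∀ a, t a ≤ s a) : TC f s := by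
  obtain ⟨c, hc⟩ := h
  exact ⟨c, fun a => (hc a).mono (hs a)⟩

theorem TC.sz_le {f : α → β} {t : α → ℕ} (h : TC f t) (a : α) : sz (f a) ≤ sz a + t a := by
  obtain ⟨c, hc⟩ := h
  obtain ⟨n, hn, hr⟩ := hc a [] [] [] []
  have := hr.length_le
  simp at this
  unfold sz BT.size
  omega

theorem TC.id : TC (fun a : α => a) (fun _ => 1) := ⟨.skip, fun a => tr_skip _⟩

theorem TC.of_enc {f : α → β} (h : ∀ a, enc (f a) = enc a) : TC f (fun _ => 1) :=
  ⟨.skip, fun a => by rw [h]; exact tr_skip _⟩

theorem TC.const (b : β) : TC (fun _ : α => b) (fun a => 9 * sz a + 5 + sz b) :=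
  ⟨.seq drop (pushT (enc b)), fun a => (tr_drop _ _).seq (tr_pushT _ _)⟩

theorem TC.comp {g : β → γ} {f : α → β} {s : β → ℕ} {t : α → ℕ} (hg : TC g s) (hf : TC f t) :
    TC (fun a => g (f a)) (fun a => t a + s (f a)) := by
  obtain ⟨c, hc⟩ := hf
  obtain ⟨d, hd⟩ := hg
  exact ⟨.seq c d, fun a => (hc a).seq (hd (f a))⟩

theorem TC.pair {f : α → β} {g : α → γ} {t s : α → ℕ} (hf : TC f t) (hg : TC g s) :
    TC (fun a => (f a, g a))
      (fun a => t a + s a + 27 * sz a + 18 * sz (f a) + 9 * sz (g a) + 31) := by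
  obtain ⟨c, hc⟩ := hf
  obtain ⟨d, hd⟩ := hg
  refine ⟨.seq dup (.seq c (.seq swap (.seq d (.seq swap mkNode)))), fun a => ?_⟩
  have h1 := tr_dup (enc a) []
  have h2 := (hc a).frame [enc a]
  have h3 := tr_swap (enc (f a)) (enc a) []
  have h4 := (hd a).frame [enc (f a)]
  have h5 := tr_swap (enc (g a)) (enc (f a)) []
  have h6 := tr_mkNode (enc (f a)) (enc (g a)) []
  refine Tr.mono (h1.seq (h2.seq (h3.seq (h4.seq (h5.seq h6))))) ?_
  unfold sz
  beta_reduce
  omega

theorem TC.fst : TC (fun p : α × β => p.1) (fun p => 9 * sz p + 9 * sz p + 20) := by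
  refine ⟨.pop .M .skip .skip (.seq swap drop), fun p => ?_⟩
  have h1 := tr_swap (enc p.1) (enc p.2) []
  have h2 := tr_drop (enc p.2) [enc p.1]
  refine Tr.mono (tr_case_node (c := .skip) (h1.seq h2)) ?_
  have : sz p = sz p.1 + sz p.2 + 1 := sz_prod p.1 p.2
  unfold sz at *
  beta_reduce
  omega

theorem TC.snd : TC (fun p : α × β => p.2) (fun p => 9 * sz p + 6) := by
  refine ⟨.pop .M .skip .skip drop, fun p => ?_⟩
  have h2 := tr_drop (enc p.1) [enc p.2]
  refine Tr.mono (tr_case_node (c := .skip) h2) ?_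
  have := sz_fst_le p
  unfold sz at *
  beta_reduce
  omega

theorem TC.bcond {p : α → Bool} {f g : α → β} {u t s : α → ℕ} (hp : TC p u) (hf : TC f t)
    (hg : TC g s) : TC (fun a => cond (p a) (f a) (g a))
      (fun a => u a + t a + s a + 18 * sz a + 50) := by
  obtain ⟨b, hb⟩ := hp
  obtain ⟨c, hc⟩ := hf
  obtain ⟨d, hd⟩ := hg
  refine ⟨.seq dup (.seq b (.pop .M .skip d (.seq drop (.seq drop c)))), fun a => ?_⟩
  have h1 := tr_dup (enc a) []
  have h2 := (hb a).frame [enc a]
  have h3 : Tr (.pop .M .skip d (.seq drop (.seq drop c))) [enc (p a), enc a]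
      [enc (cond (p a) (f a) (g a))] (t a + s a + 30) := by
    cases h : p a
    · refine Tr.mono (tr_case_leaf (hd a)) (by omega)
    · refine Tr.mono (tr_case_node ((tr_drop .leaf _).seq ((tr_drop .leaf _).seq (hc a)))) ?_
      simp; omega
  refine Tr.mono (h1.seq (h2.seq h3)) ?_
  unfold sz
  beta_reduce
  omega

/-! Polynomial time closure -/

theorem Poly.sz {f : α → β} (h : Poly f) : PB (fun a => Pool.PT.sz (f a)) := by
  obtain ⟨t, ht, hc⟩ := h
  exact (PB.sz.add ht).mono (fun a => hc.sz_le a)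

@[fun_prop] theorem Poly.id : Poly (fun a : α => a) := ⟨_, PB.const 1, TC.id⟩

theorem Poly.of_enc {f : α → β} (h : ∀ a, enc (f a) = enc a) : Poly f :=
  ⟨_, PB.const 1, TC.of_enc h⟩

@[fun_prop] theorem Poly.const (b : β) : Poly (fun _ : α => b) :=
  ⟨_, (((PB.const 9).mul PB.sz).add (PB.const 5)).add (PB.const _), TC.const b⟩

@[fun_prop] theorem Poly.comp {g : β → γ} {f : α → β} (hg : Poly g) (hf : Poly f) :
    Poly (fun a => g (f a)) := by
  obtain ⟨s, hs, hcg⟩ := hg
  have hsz := hf.sz
  obtain ⟨t, ht, hcf⟩ := hf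
  exact ⟨_, ht.add (hs.comp hsz), hcg.comp hcf⟩

@[fun_prop] theorem Poly.pair {f : α → β} {g : α → γ} (hf : Poly f) (hg : Poly g) :
    Poly (fun a => (f a, g a)) := by
  have h1 := hf.sz
  have h2 := hg.sz
  obtain ⟨t, ht, hcf⟩ := hf
  obtain ⟨s, hs, hcg⟩ := hg
  exact ⟨_, ((((ht.add hs).add ((PB.const 27).mul PB.sz)).add ((PB.const 18).mul h1)).add
    ((PB.const 9).mul h2)).add (PB.const 31), hcf.pair hcg⟩

@[fun_prop] theorem Poly.fst {f : α → β × γ} (hf : Poly f) : Poly (fun a => (f a).1) := by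
  have h : Poly (fun p : β × γ => p.1) :=
    ⟨_, (((PB.const 9).mul PB.sz).add ((PB.const 9).mul PB.sz)).add (PB.const 20), TC.fst⟩
  exact h.comp hf

@[fun_prop] theorem Poly.snd {f : α → β × γ} (hf : Poly f) : Poly (fun a => (f a).2) := by
  have h : Poly (fun p : β × γ => p.2) :=
    ⟨_, (((PB.const 9).mul PB.sz)).add (PB.const 6), TC.snd⟩
  exact h.comp hf

@[fun_prop] theorem Poly.bcond {p : α → Bool} {f g : α → β} (hp : Poly p) (hf : Poly f)
    (hg : Poly g) : Poly (fun a => cond (p a) (f a) (g a)) := by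
  obtain ⟨u, hu, h1⟩ := hp
  obtain ⟨t, ht, h2⟩ := hf
  obtain ⟨s, hs, h3⟩ := hg
  exact ⟨_, (((hu.add ht).add hs).add ((PB.const 18).mul PB.sz)).add (PB.const 50),
    TC.bcond h1 h2 h3⟩

theorem Poly.congr {f g : α → β} (hf : Poly f) (h : ∀ a, f a = g a) : Poly g := by
  have : f = g := funext h
  rwa [← this]

theorem Poly.ite {p : α → Prop} [DecidablePred p] {f g : α → β}
    (hp : Poly (fun a => decide (p a))) (hf : Poly f)
    (hg : Poly g) : Poly (fun a => if p a then f a else g a) := by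
  refine (Poly.bcond hp hf hg).congr (fun a => ?_)
  by_cases h : p a <;> simp [h]

end basic

end Pool.PT

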