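import Pool.Agent.Work.PolyTime.Machine

/-!
Binary trees as data, coded on the main stack; stack transformers `Tr`.
-/

namespace Pool.PT

/-- Binary trees. -/
inductive BT
  | leaf : BT
  | node (l r : BT) : BT
  deriving DecidableEq

/-- Polish code of a tree as a bit string. -/
def BT.ser : BT → List Bool
  | .leaf => [false]
  | .node l r => true :: (l.ser ++ r.ser)

/-- Size of a tree: length of its code. -/
def BT.size (t : BT) : ℕ := t.ser.length

@[simp] theorem BT.size_leaf : BT.leaf.size = 1 := rfl
@[simp] theorem BT.size_node (l r : BT) : (BT.node l r).size = l.size + r.size + 1 := by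
  simp [BT.size, BT.ser]

theorem BT.size_pos (t : BT) : 0 < t.size := by
  cases t <;> simp

theorem BT.one_le_size (t : BT) : 1 ≤ t.size := t.size_pos

/-- Concatenated codes. -/
def sers : List BT → List Bool
  | [] => []
  | t :: ts => t.ser ++ sers ts

@[simp] theorem sers_nil : sers [] = [] := rfl
@[simp] theorem sers_cons (t : BT) (ts : List BT) : sers (t :: ts) = t.ser ++ sers ts := rfl
theorem sers_append (xs ys : List BT) : sers (xs ++ ys) = sers xs ++ sers ys := by
  induction xs with
  | nil => simp
  | cons x xs ih => simp [ih, List.append_assoc]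

theorem ser_append_inj : ∀ (x y : BT) (r r' : List Bool), x.ser ++ r = y.ser ++ r' →
    x = y ∧ r = r' := by
  intro x
  induction x with
  | leaf =>
    intro y r r' h
    cases y with
    | leaf => simpa [BT.ser] using h
    | node l t => simp [BT.ser] at h
  | node a b iha ihb =>
    intro y r r' h
    cases y with
    | leaf => simp [BT.ser] at h
    | node l t =>
      simp only [BT.ser, List.cons_append, List.append_assoc, List.cons.injEq, true_and] at h
      obtain ⟨h1, h2⟩ := iha l _ _ h
      obtain ⟨h3, h4⟩ := ihb t _ _ h2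
      exact ⟨by rw [h1, h3], h4⟩

theorem ser_injective : Function.Injective BT.ser := by
  intro x y h
  exact (ser_append_inj x y [] [] (by simpa using h)).1

/-- Runs within a step bound. -/
def RunsLe (c : Cmd) (s s' : St) (N : ℕ) : Prop := ∃ n, n ≤ N ∧ Runs c s s' n

theorem RunsLe.mono {c : Cmd} {s s' : St} {N N' : ℕ} (h : RunsLe c s s' N) (hN : N ≤ N') :
    RunsLe c s s' N' := by
  obtain ⟨n, hn, hr⟩ := h
  exact ⟨n, hn.trans hN, hr⟩

theorem RunsLe.seq {p q : Cmd} {s s' s'' : St} {N N' : ℕ} (h1 : RunsLe p s s' N)
    (h2 : RunsLe q s' s'' N') : RunsLe (.seq p q) s s'' (N + N') := by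
  obtain ⟨n, hn, hr⟩ := h1
  obtain ⟨n', hn', hr'⟩ := h2
  exact ⟨n + n', by omega, hr.seq hr'⟩

theorem RunsLe.push (k : Reg) (b : Bool) (s : St) :
    RunsLe (.push k b) s (s.set k (b :: s.get k)) 1 := ⟨1, le_refl _, Runs.push k b s⟩

theorem RunsLe.skip (s : St) : RunsLe .skip s s 1 := ⟨1, le_refl _, Runs.skip s⟩

theorem RunsLe.popF {k : Reg} {pe pf pt : Cmd} {s s' : St} {N : ℕ} {l : List Bool}
    (h : s.get k = false :: l) (h1 : RunsLe pf (s.set k l) s' N) :
    RunsLe (.pop k pe pf pt) s s' (N + 1) := by
  obtain ⟨n, hn, hr⟩ := h1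
  exact ⟨n + 1, by omega, Runs.popF h hr⟩

theorem RunsLe.popT {k : Reg} {pe pf pt : Cmd} {s s' : St} {N : ℕ} {l : List Bool}
    (h : s.get k = true :: l) (h1 : RunsLe pt (s.set k l) s' N) :
    RunsLe (.pop k pe pf pt) s s' (N + 1) := by
  obtain ⟨n, hn, hr⟩ := h1
  exact ⟨n + 1, by omega, Runs.popT h hr⟩

theorem RunsLe.loopF {k : Reg} {p : Cmd} {s : St} {l : List Bool}
    (h : s.get k = false :: l) : RunsLe (.loop k p) s (s.set k l) 1 :=
  ⟨1, le_refl _, Runs.loopF h⟩

theorem RunsLe.loopT {k : Reg} {p : Cmd} {s s' s'' : St} {N N' : ℕ} {l : List Bool}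
    (h : s.get k = true :: l) (h1 : RunsLe p (s.set k l) s' N)
    (h2 : RunsLe (.loop k p) s' s'' N') : RunsLe (.loop k p) s s'' (N + N' + 1) := by
  obtain ⟨n, hn, hr⟩ := h1
  obtain ⟨n', hn', hr'⟩ := h2
  exact ⟨n + n' + 1, by omega, Runs.loopT h hr hr'⟩

/-- Coded bits, last bit on top. -/
def cod : List Bool → List Bool → List Bool
  | [], a => a
  | b :: w, a => cod w (true :: b :: a)

/-- Coded bits, first bit on top. -/
def cdr : List Bool → List Bool → List Bool
  | [], a => a
  | b :: w, a => true :: b :: cdr w a

theorem cod_append (w w' a : List Bool) : cod (w ++ w') a = cod w' (cod w a) := by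
  induction w generalizing a with
  | nil => rfl
  | cons b w ih => simp [cod, ih]

theorem cdr_append (w w' a : List Bool) : cdr (w ++ w') a = cdr w (cdr w' a) := by
  induction w with
  | nil => rfl
  | cons b w ih => simp [cdr, ih]

/-- Body of the loop moving a tree from `M` to `A`. -/
def toABody : Cmd :=
  .pop .M .skip (.seq (.push .A false) (.push .A true))
    (.seq (.push .A true) (.seq (.push .A true) (.seq (.push .C true) (.push .C true))))

/-- Move the top tree of `M` to `A`. -/
def toA : Cmd :=
  .seq (.push .A false) (.seq (.push .C false) (.seq (.push .C true) (.loop .C toABody)))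

/-- Body of the loop moving a tree from `M` to `B`. -/
def toBBody : Cmd :=
  .pop .M .skip (.seq (.push .B false) (.push .B true))
    (.seq (.push .B true) (.seq (.push .B true) (.seq (.push .C true) (.push .C true))))

/-- Move the top tree of `M` to `B`. -/
def toB : Cmd :=
  .seq (.push .B false) (.seq (.push .C false) (.seq (.push .C true) (.loop .C toBBody)))

theorem toA_loop (N : ℕ) : ∀ (ts : List BT), (sers ts).length ≤ N → ∀ (r a b k : List Bool),
    RunsLe (.loop .C toABody) ⟨sers ts ++ r, a, b, List.replicate ts.length true ++ false :: k⟩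
      ⟨r, cod (sers ts) a, b, k⟩ (6 * (sers ts).length + 1) := by
  induction N with
  | zero =>
    intro ts hts r a b k
    cases ts with
    | nil => exact RunsLe.loopF (k := .C) (by rfl)
    | cons t ts =>
      have := t.size_pos
      simp only [sers_cons, List.length_append] at hts
      unfold BT.size at this
      omega
  | succ N ih =>
    intro ts hts r a b k
    cases ts with
    | nil => exact RunsLe.loopF (k := .C) (by rfl)
    | cons t ts =>
      cases t with
      | leaf =>
        have h1 := ih ts (by simp [BT.ser] at hts; omega) r (true :: false :: a) b k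
        have h2 : RunsLe toABody
            ⟨sers (BT.leaf :: ts) ++ r, a, b, List.replicate ts.length true ++ false :: k⟩
            ⟨sers ts ++ r, true :: false :: a, b, List.replicate ts.length true ++ false :: k⟩
            3 := by
          refine RunsLe.popF (l := sers ts ++ r) (by simp [BT.ser]) ?_
          exact RunsLe.seq (RunsLe.push _ _ _) (RunsLe.push _ _ _)
        refine RunsLe.mono (RunsLe.loopT (N' := 6 * (sers ts).length + 1) (k := .C)
          (l := List.replicate ts.length true ++ false :: k)
          (by simp [List.replicate_succ]) h2 ?_) ?_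
        · simpa [BT.ser, cod] using h1
        · simp [BT.ser]; omega
      | node x y =>
        have h1 := ih (x :: y :: ts) (by simp [BT.ser] at hts ⊢; omega) r (true :: true :: a) b k
        have h2 : RunsLe toABody
            ⟨sers (BT.node x y :: ts) ++ r, a, b, List.replicate ts.length true ++ false :: k⟩
            ⟨sers (x :: y :: ts) ++ r, true :: true :: a, b,
              List.replicate (x :: y :: ts).length true ++ false :: k⟩
            5 := by
          refine RunsLe.popT (l := sers (x :: y :: ts) ++ r) (by simp [BT.ser]) ?_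
          refine RunsLe.mono (RunsLe.seq (RunsLe.push _ _ _) (RunsLe.seq (RunsLe.push _ _ _)
            (RunsLe.seq (RunsLe.push _ _ _) (RunsLe.push _ _ _)))) (by norm_num)
        refine RunsLe.mono (RunsLe.loopT (N' := 6 * (sers (x :: y :: ts)).length + 1) (k := .C)
          (l := List.replicate ts.length true ++ false :: k)
          (by simp [List.replicate_succ]) h2 ?_) ?_
        · simpa [BT.ser, cod] using h1
        · simp [BT.ser]; omega

theorem toA_runs (t : BT) (r a b k : List Bool) :
    RunsLe toA ⟨t.ser ++ r, a, b, k⟩ ⟨r, cod t.ser (false :: a), b, k⟩ (6 * t.size + 4) := by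
  have h := toA_loop _ [t] (le_refl _) r (false :: a) b k
  simp only [sers_cons, sers_nil, List.append_nil, List.length_cons, List.length_nil] at h
  refine RunsLe.mono (RunsLe.seq (RunsLe.push _ _ _) (RunsLe.seq (RunsLe.push _ _ _)
    (RunsLe.seq (RunsLe.push _ _ _) h))) ?_
  simp [BT.size]; omega

theorem toB_loop (N : ℕ) : ∀ (ts : List BT), (sers ts).length ≤ N → ∀ (r a b k : List Bool),
    RunsLe (.loop .C toBBody) ⟨sers ts ++ r, a, b, List.replicate ts.length true ++ false :: k⟩
      ⟨r, a, cod (sers ts) b, k⟩ (6 * (sers ts).length + 1) := by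
  induction N with
  | zero =>
    intro ts hts r a b k
    cases ts with
    | nil => exact RunsLe.loopF (k := .C) (by rfl)
    | cons t ts =>
      have := t.size_pos
      simp only [sers_cons, List.length_append] at hts
      unfold BT.size at this
      omega
  | succ N ih =>
    intro ts hts r a b k
    cases ts with
    | nil => exact RunsLe.loopF (k := .C) (by rfl)
    | cons t ts =>
      cases t with
      | leaf =>
        have h1 := ih ts (by simp [BT.ser] at hts; omega) r a (true :: false :: b) k
        have h2 : RunsLe toBBody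
            ⟨sers (BT.leaf :: ts) ++ r, a, b, List.replicate ts.length true ++ false :: k⟩
            ⟨sers ts ++ r, a, true :: false :: b, List.replicate ts.length true ++ false :: k⟩
            3 := by
          refine RunsLe.popF (l := sers ts ++ r) (by simp [BT.ser]) ?_
          exact RunsLe.seq (RunsLe.push _ _ _) (RunsLe.push _ _ _)
        refine RunsLe.mono (RunsLe.loopT (N' := 6 * (sers ts).length + 1) (k := .C)
          (l := List.replicate ts.length true ++ false :: k)
          (by simp [List.replicate_succ]) h2 ?_) ?_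
        · simpa [BT.ser, cod] using h1
        · simp [BT.ser]; omega
      | node x y =>
        have h1 := ih (x :: y :: ts) (by simp [BT.ser] at hts ⊢; omega) r a (true :: true :: b) k
        have h2 : RunsLe toBBody
            ⟨sers (BT.node x y :: ts) ++ r, a, b, List.replicate ts.length true ++ false :: k⟩
            ⟨sers (x :: y :: ts) ++ r, a, true :: true :: b,
              List.replicate (x :: y :: ts).length true ++ false :: k⟩
            5 := by
          refine RunsLe.popT (l := sers (x :: y :: ts) ++ r) (by simp [BT.ser]) ?_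
          refine RunsLe.mono (RunsLe.seq (RunsLe.push _ _ _) (RunsLe.seq (RunsLe.push _ _ _)
            (RunsLe.seq (RunsLe.push _ _ _) (RunsLe.push _ _ _)))) (by norm_num)
        refine RunsLe.mono (RunsLe.loopT (N' := 6 * (sers (x :: y :: ts)).length + 1) (k := .C)
          (l := List.replicate ts.length true ++ false :: k)
          (by simp [List.replicate_succ]) h2 ?_) ?_
        · simpa [BT.ser, cod] using h1
        · simp [BT.ser]; omega

theorem toB_runs (t : BT) (r a b k : List Bool) :
    RunsLe toB ⟨t.ser ++ r, a, b, k⟩ ⟨r, a, cod t.ser (false :: b), k⟩ (6 * t.size + 4) := by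
  have h := toB_loop _ [t] (le_refl _) r a (false :: b) k
  simp only [sers_cons, sers_nil, List.append_nil, List.length_cons, List.length_nil] at h
  refine RunsLe.mono (RunsLe.seq (RunsLe.push _ _ _) (RunsLe.seq (RunsLe.push _ _ _)
    (RunsLe.seq (RunsLe.push _ _ _) h))) ?_
  simp [BT.size]; omega

/-- Move the top block of `A` back to `M`. -/
def fromA : Cmd := .loop .A (.pop .A .skip (.push .M false) (.push .M true))

/-- Move the top block of `B` back to `M`. -/
def fromB : Cmd := .loop .B (.pop .B .skip (.push .M false) (.push .M true))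

theorem fromA_runs (w : List Bool) : ∀ (r a b k : List Bool),
    RunsLe fromA ⟨r, cod w (false :: a), b, k⟩ ⟨w ++ r, a, b, k⟩ (3 * w.length + 1) := by
  induction w using List.reverseRecOn with
  | nil => intro r a b k; exact RunsLe.loopF (k := .A) (by rfl)
  | append_singleton w x ih =>
    intro r a b k
    have h2 : RunsLe (.pop .A .skip (.push .M false) (.push .M true))
        ⟨r, x :: cod w (false :: a), b, k⟩ ⟨x :: r, cod w (false :: a), b, k⟩ 2 := by
      cases x
      · exact RunsLe.popF (k := .A) (by rfl) (RunsLe.push _ _ _)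
      · exact RunsLe.popT (k := .A) (by rfl) (RunsLe.push _ _ _)
    have h3 := RunsLe.loopT (k := .A) (s := ⟨r, cod (w ++ [x]) (false :: a), b, k⟩)
      (l := x :: cod w (false :: a)) (by simp [cod_append, cod]) h2 (ih (x :: r) a b k)
    refine RunsLe.mono ?_ (show 2 + (3 * w.length + 1) + 1 ≤ _ by simp; omega)
    simpa [fromA] using h3

theorem fromB_runs (w : List Bool) : ∀ (r a b k : List Bool),
    RunsLe fromB ⟨r, a, cod w (false :: b), k⟩ ⟨w ++ r, a, b, k⟩ (3 * w.length + 1) := by
  induction w using List.reverseRecOn with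
  | nil => intro r a b k; exact RunsLe.loopF (k := .B) (by rfl)
  | append_singleton w x ih =>
    intro r a b k
    have h2 : RunsLe (.pop .B .skip (.push .M false) (.push .M true))
        ⟨r, a, x :: cod w (false :: b), k⟩ ⟨x :: r, a, cod w (false :: b), k⟩ 2 := by
      cases x
      · exact RunsLe.popF (k := .B) (by rfl) (RunsLe.push _ _ _)
      · exact RunsLe.popT (k := .B) (by rfl) (RunsLe.push _ _ _)
    have h3 := RunsLe.loopT (k := .B) (s := ⟨r, a, cod (w ++ [x]) (false :: b), k⟩)
      (l := x :: cod w (false :: b)) (by simp [cod_append, cod]) h2 (ih (x :: r) a b k)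
    refine RunsLe.mono ?_ (show 2 + (3 * w.length + 1) + 1 ≤ _ by simp; omega)
    simpa [fromB] using h3

/-- Drop the top block of `A`. -/
def dropA : Cmd := .loop .A (.pop .A .skip .skip .skip)

theorem dropA_runs (w : List Bool) : ∀ (r a b k : List Bool),
    RunsLe dropA ⟨r, cod w (false :: a), b, k⟩ ⟨r, a, b, k⟩ (3 * w.length + 1) := by
  induction w using List.reverseRecOn with
  | nil => intro r a b k; exact RunsLe.loopF (k := .A) (by rfl)
  | append_singleton w x ih =>
    intro r a b k
    have h2 : RunsLe (.pop .A .skip .skip .skip)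
        ⟨r, x :: cod w (false :: a), b, k⟩ ⟨r, cod w (false :: a), b, k⟩ 2 := by
      cases x
      · exact RunsLe.popF (k := .A) (by rfl) (RunsLe.skip _)
      · exact RunsLe.popT (k := .A) (by rfl) (RunsLe.skip _)
    have h3 := RunsLe.loopT (k := .A) (s := ⟨r, cod (w ++ [x]) (false :: a), b, k⟩)
      (l := x :: cod w (false :: a)) (by simp [cod_append, cod]) h2 (ih r a b k)
    refine RunsLe.mono ?_ (show 2 + (3 * w.length + 1) + 1 ≤ _ by simp; omega)
    simpa [dropA] using h3

/-- Copy the top block of `A` to `M` and, reversed, to `B`. -/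
def splitA : Cmd :=
  .loop .A (.pop .A .skip (.seq (.push .M false) (.seq (.push .B false) (.push .B true)))
    (.seq (.push .M true) (.seq (.push .B true) (.push .B true))))

theorem splitA_runs (w : List Bool) : ∀ (r a b k : List Bool),
    RunsLe splitA ⟨r, cod w (false :: a), b, k⟩ ⟨w ++ r, a, cdr w b, k⟩ (5 * w.length + 1) := by
  induction w using List.reverseRecOn with
  | nil => intro r a b k; exact RunsLe.loopF (k := .A) (by rfl)
  | append_singleton w x ih =>
    intro r a b k
    have h2 : RunsLe (.pop .A .skip (.seq (.push .M false) (.seq (.push .B false) (.push .B true)))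
        (.seq (.push .M true) (.seq (.push .B true) (.push .B true))))
        ⟨r, x :: cod w (false :: a), b, k⟩ ⟨x :: r, cod w (false :: a), true :: x :: b, k⟩ 4 := by
      cases x
      · exact RunsLe.popF (k := .A) (by rfl) (RunsLe.seq (RunsLe.push _ _ _)
          (RunsLe.seq (RunsLe.push _ _ _) (RunsLe.push _ _ _)))
      · exact RunsLe.popT (k := .A) (by rfl) (RunsLe.seq (RunsLe.push _ _ _)
          (RunsLe.seq (RunsLe.push _ _ _) (RunsLe.push _ _ _)))
    have h3 := RunsLe.loopT (k := .A) (s := ⟨r, cod (w ++ [x]) (false :: a), b, k⟩)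
      (l := x :: cod w (false :: a)) (by simp [cod_append, cod]) h2
      (ih (x :: r) a (true :: x :: b) k)
    refine RunsLe.mono ?_ (show 4 + (5 * w.length + 1) + 1 ≤ _ by simp; omega)
    simpa [splitA, cdr_append, cdr] using h3

/-- Move the top block of `B` (first bit on top) to `A`. -/
def flipB : Cmd :=
  .loop .B (.pop .B .skip (.seq (.push .A false) (.push .A true))
    (.seq (.push .A true) (.push .A true)))

theorem flipB_runs (w : List Bool) : ∀ (r a b k : List Bool),
    RunsLe flipB ⟨r, a, cdr w (false :: b), k⟩ ⟨r, cod w a, b, k⟩ (4 * w.length + 1) := by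
  induction w with
  | nil => intro r a b k; exact RunsLe.loopF (k := .B) (by rfl)
  | cons x w ih =>
    intro r a b k
    have h2 : RunsLe (.pop .B .skip (.seq (.push .A false) (.push .A true))
        (.seq (.push .A true) (.push .A true)))
        ⟨r, a, x :: cdr w (false :: b), k⟩ ⟨r, true :: x :: a, cdr w (false :: b), k⟩ 3 := by
      cases x
      · exact RunsLe.popF (k := .B) (by rfl) (RunsLe.seq (RunsLe.push _ _ _) (RunsLe.push _ _ _))
      · exact RunsLe.popT (k := .B) (by rfl) (RunsLe.seq (RunsLe.push _ _ _) (RunsLe.push _ _ _))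
    have h3 := RunsLe.loopT (k := .B) (s := ⟨r, a, cdr (x :: w) (false :: b), k⟩)
      (l := x :: cdr w (false :: b)) (by simp [cdr]) h2 (ih r (true :: x :: a) b k)
    refine RunsLe.mono ?_ (show 3 + (4 * w.length + 1) + 1 ≤ _ by simp; omega)
    simpa [flipB, cod] using h3

/-! ### Stack transformers -/

/-- `Tr c xs ys N`: the program replaces the trees `xs` on top of `M` by `ys` within `N` steps,
preserving everything else. -/
def Tr (c : Cmd) (xs ys : List BT) (N : ℕ) : Prop :=
  ∀ r a b k : List Bool, RunsLe c ⟨sers xs ++ r, a, b, k⟩ ⟨sers ys ++ r, a, b, k⟩ N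

theorem Tr.mono {c : Cmd} {xs ys : List BT} {N N' : ℕ} (h : Tr c xs ys N) (hN : N ≤ N') :
    Tr c xs ys N' := fun r a b k => (h r a b k).mono hN

theorem Tr.seq {c d : Cmd} {xs ys zs : List BT} {N N' : ℕ} (h1 : Tr c xs ys N)
    (h2 : Tr d ys zs N') : Tr (.seq c d) xs zs (N + N') :=
  fun r a b k => (h1 r a b k).seq (h2 r a b k)

theorem Tr.frame {c : Cmd} {xs ys : List BT} {N : ℕ} (h : Tr c xs ys N) (zs : List BT) :
    Tr c (xs ++ zs) (ys ++ zs) N := by
  intro r a b k
  simpa [sers_append, List.append_assoc] using h (sers zs ++ r) a b k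

theorem tr_skip (xs : List BT) : Tr .skip xs xs 1 := fun r a b k => RunsLe.skip _

/-- Push a leaf. -/
def pushLeaf : Cmd := .push .M false

theorem tr_pushLeaf (xs : List BT) : Tr pushLeaf xs (.leaf :: xs) 1 :=
  fun r a b k => RunsLe.push _ _ _

/-- Join the two top trees. -/
def mkNode : Cmd := .push .M true

theorem tr_mkNode (x y : BT) (zs : List BT) : Tr mkNode (x :: y :: zs) (.node x y :: zs) 1 := by
  intro r a b k
  have := RunsLe.push .M true ⟨sers (x :: y :: zs) ++ r, a, b, k⟩
  simpa [mkNode, BT.ser] using this

theorem tr_case_leaf {c d : Cmd} {xs ys : List BT} {N : ℕ} (h : Tr c xs ys N) :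
    Tr (.pop .M .skip c d) (.leaf :: xs) ys (N + 1) := by
  intro r a b k
  exact RunsLe.popF (k := .M) (by simp [BT.ser]) (h r a b k)

theorem tr_case_node {c d : Cmd} {x y : BT} {xs ys : List BT} {N : ℕ}
    (h : Tr d (x :: y :: xs) ys N) :
    Tr (.pop .M .skip c d) (.node x y :: xs) ys (N + 1) := by
  intro r a b k
  refine RunsLe.popT (k := .M) (l := sers (x :: y :: xs) ++ r) (by simp [BT.ser]) (h r a b k)

/-- Apply a program below the top tree. -/
def dip (c : Cmd) : Cmd := .seq toA (.seq c fromA)

theorem tr_dip {c : Cmd} {xs ys : List BT} {N : ℕ} (h : Tr c xs ys N) (z : BT) :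
    Tr (dip c) (z :: xs) (z :: ys) (N + 9 * z.size + 5) := by
  intro r a b k
  have h1 := toA_runs z (sers xs ++ r) a b k
  have h2 := h r (cod z.ser (false :: a)) b k
  have h3 := fromA_runs z.ser (sers ys ++ r) a b k
  refine RunsLe.mono (by simpa [dip] using RunsLe.seq h1 (RunsLe.seq h2 h3)) ?_
  simp [BT.size]; omega

/-- Swap the two top trees. -/
def swap : Cmd := .seq toA (.seq toB (.seq fromA fromB))

theorem tr_swap (x y : BT) (zs : List BT) :
    Tr swap (x :: y :: zs) (y :: x :: zs) (9 * x.size + 9 * y.size + 10) := by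
  intro r a b k
  have h1 := toA_runs x (sers (y :: zs) ++ r) a b k
  have h2 := toB_runs y (sers zs ++ r) (cod x.ser (false :: a)) b k
  have h3 := fromA_runs x.ser (sers zs ++ r) a (cod y.ser (false :: b)) k
  have h4 := fromB_runs y.ser (x.ser ++ (sers zs ++ r)) a b k
  have h2' : RunsLe toB ⟨sers (y :: zs) ++ r, cod x.ser (false :: a), b, k⟩
      ⟨sers zs ++ r, cod x.ser (false :: a), cod y.ser (false :: b), k⟩ (6 * y.size + 4) := by
    simpa using h2
  refine RunsLe.mono (by simpa [swap] using RunsLe.seq h1 (RunsLe.seq h2' (RunsLe.seq h3 h4))) ?_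
  simp [BT.size]; omega

/-- Drop the top tree. -/
def drop : Cmd := .seq toA dropA

theorem tr_drop (x : BT) (zs : List BT) : Tr drop (x :: zs) zs (9 * x.size + 5) := by
  intro r a b k
  have h1 := toA_runs x (sers zs ++ r) a b k
  have h2 := dropA_runs x.ser (sers zs ++ r) a b k
  refine RunsLe.mono (by simpa [drop] using RunsLe.seq h1 h2) ?_
  simp [BT.size]; omega

/-- Duplicate the top tree. -/
def dup : Cmd :=
  .seq toA (.seq (.push .B false) (.seq splitA (.seq (.push .A false) (.seq flipB fromA))))

theorem tr_dup (x : BT) (zs : List BT) : Tr dup (x :: zs) (x :: x :: zs) (18 * x.size + 10) := by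
  intro r a b k
  have h1 := toA_runs x (sers zs ++ r) a b k
  have h2 := RunsLe.push .B false ⟨sers zs ++ r, cod x.ser (false :: a), b, k⟩
  have h3 := splitA_runs x.ser (sers zs ++ r) a (false :: b) k
  have h4 := RunsLe.push .A false ⟨x.ser ++ (sers zs ++ r), a, cdr x.ser (false :: b), k⟩
  have h5 := flipB_runs x.ser (x.ser ++ (sers zs ++ r)) (false :: a) b k
  have h6 := fromA_runs x.ser (x.ser ++ (sers zs ++ r)) a b k
  refine RunsLe.mono (by simpa [dup] using RunsLe.seq h1 (RunsLe.seq h2 (RunsLe.seq h3
    (RunsLe.seq h4 (RunsLe.seq h5 h6))))) ?_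
  simp [BT.size]; omega

/-- Push a constant tree. -/
def pushT : BT → Cmd
  | .leaf => pushLeaf
  | .node x y => .seq (pushT y) (.seq (pushT x) mkNode)

theorem tr_pushT (t : BT) : ∀ zs : List BT, Tr (pushT t) zs (t :: zs) t.size := by
  induction t with
  | leaf => intro zs; exact tr_pushLeaf zs
  | node x y ihx ihy =>
    intro zs
    refine Tr.mono ((ihy zs).seq ((ihx _).seq (tr_mkNode x y zs))) ?_
    simp; omega

end Pool.PT
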